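import Mathlib

set_option autoImplicit false

namespace Pool.Agent.Lib.MP_cb9cb0_lc

/-- Submodularity of a rational valued function of Boolean variables. -/
def Submodular {ι : Type} (f : (ι → Bool) → ℚ) : Prop :=
  ∀ x y, f (x ⊓ y) + f (x ⊔ y) ≤ f x + f y

/-- `f` is a minimum, over auxiliary Boolean variables, of a finite sum of binary submodular
functions, each applied to a pair of (original or auxiliary) variables. -/
def Expressible {n : ℕ} (f : (Fin n → Bool) → ℚ) : Prop :=
  ∃ (m r : ℕ) (g : Fin r → (Fin 2 → Bool) → ℚ) (a : Fin r → Fin 2 → Fin n ⊕ Fin m),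
    (∀ j, Submodular (g j)) ∧
    ∀ x, IsLeast (Set.range fun y : Fin m → Bool =>
      ∑ j, g j (fun k => Sum.elim x y (a j k))) (f x)

/-- An input: the number `n` of variables and the list of pairs `(I, a_I)`. -/
abbrev Input : Type := ℕ × List (Finset ℕ × ℚ)

/-- The input lists the nonzero coefficients of a multilinear polynomial of degree 4 in the
variables `0, ..., n - 1`. -/
def IsQuartic (p : Input) : Prop :=
  (p.2.map Prod.fst).Nodup ∧
  (∀ t ∈ p.2, t.2 ≠ 0 ∧ t.1 ⊆ Finset.range p.1 ∧ t.1.card ≤ 4) ∧ ∃ t ∈ p.2, t.1.card = 4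

/-- The function on the Boolean cube defined by the input. -/
def value (p : Input) (x : Fin p.1 → Bool) : ℚ :=
  (p.2.map fun t => t.2 * ∏ i : Fin p.1 with i.val ∈ t.1, (if x i then (1 : ℚ) else 0)).sum

end Pool.Agent.Lib.MP_cb9cb0_lc
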