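import Mathlib
import Pool.Agent.Lib.MP_cb9cb0_lc.Defs

/-!
Closure properties of expressibility, gadgets, and the five-fold inequality.
-/

set_option autoImplicit false

open Finset

namespace Pool.Agent.Lib.MP_cb9cb0_lc

/-- value of a bit -/
def bv (b : Bool) : ℚ := if b then 1 else 0

@[simp] lemma bv_true : bv true = 1 := rfl
@[simp] lemma bv_false : bv false = 0 := rfl
lemma bv_nonneg (b : Bool) : 0 ≤ bv b := by cases b <;> simp
lemma bv_le (b : Bool) : bv b ≤ 1 := by cases b <;> simp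

/-- sums of binary submodular functions -/
def Bin {W : Type} (c : (W → Bool) → ℚ) : Prop :=
  ∃ (J : Type) (_ : Fintype J) (g : J → (Fin 2 → Bool) → ℚ) (a : J → Fin 2 → W),
    (∀ j, Submodular (g j)) ∧ ∀ z, c z = ∑ j, g j (fun k => z (a j k))

section Bin
variable {W W' : Type}

lemma Bin.of_eq {c d : (W → Bool) → ℚ} (h : Bin c) (e : ∀ z, c z = d z) : Bin d := by
  have : c = d := funext e
  rwa [← this]

lemma Bin.zero : Bin (fun _ : W → Bool => 0) :=
  ⟨Empty, inferInstance, fun j => j.elim, fun j => j.elim, fun j => j.elim, fun _ => by simp⟩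

lemma Bin.add {c d : (W → Bool) → ℚ} (h : Bin c) (h' : Bin d) : Bin (fun z => c z + d z) := by
  obtain ⟨J, _, g, a, h1, h2⟩ := h
  obtain ⟨J', _, g', a', h1', h2'⟩ := h'
  refine ⟨J ⊕ J', inferInstance, Sum.elim g g', Sum.elim a a', ?_, fun z => ?_⟩
  · rintro (j | j)
    · exact h1 j
    · exact h1' j
  · beta_reduce
    rw [Fintype.sum_sum_type, h2, h2']; rfl

lemma Bin.smul {c : (W → Bool) → ℚ} (h : Bin c) {k : ℚ} (hk : 0 ≤ k) : Bin (fun z => k * c z) := by
  obtain ⟨J, _, g, a, h1, h2⟩ := h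
  refine ⟨J, inferInstance, fun j v => k * g j v, a, fun j x y => ?_, fun z => ?_⟩
  · have := mul_le_mul_of_nonneg_left (h1 j x y) hk
    linarith
  · beta_reduce
    rw [h2, Finset.mul_sum]

lemma Bin.sum {I : Type} (s : Finset I) {c : I → (W → Bool) → ℚ} (h : ∀ i ∈ s, Bin (c i)) :
    Bin (fun z => ∑ i ∈ s, c i z) := by
  classical
  induction s using Finset.induction_on with
  | empty => exact Bin.zero.of_eq (by simp)
  | insert i s hi ih =>
    refine ((h i (by simp)).add (ih fun j hj => h j (by simp [hj]))).of_eq fun z => ?_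
    rw [Finset.sum_insert hi]

lemma Bin.rename {c : (W → Bool) → ℚ} (h : Bin c) (ρ : W → W') :
    Bin (fun z : W' → Bool => c (fun w => z (ρ w))) := by
  obtain ⟨J, _, g, a, h1, h2⟩ := h
  exact ⟨J, inferInstance, g, fun j k => ρ (a j k), h1, fun z => h2 _⟩

lemma Bin.pair (a b : W) (c0 c1 c2 d : ℚ) (hd : d ≤ 0) :
    Bin (fun z => c0 + c1 * bv (z a) + c2 * bv (z b) + d * (bv (z a) * bv (z b))) := by
  refine ⟨Unit, inferInstance,
    fun _ v => c0 + c1 * bv (v 0) + c2 * bv (v 1) + d * (bv (v 0) * bv (v 1)),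
    fun _ => ![a, b], fun _ x y => ?_, fun z => by simp⟩
  simp only [Pi.inf_apply, Pi.sup_apply]
  cases x 0 <;> cases x 1 <;> cases y 0 <;> cases y 1 <;> simp <;> linarith

lemma Bin.lin (a : W) (c0 c1 : ℚ) : Bin (fun z => c0 + c1 * bv (z a)) :=
  (Bin.pair a a c0 c1 0 0 le_rfl).of_eq fun z => by ring

lemma Bin.neg (a b : W) : Bin (fun z => - (bv (z a) * bv (z b))) :=
  (Bin.pair a b 0 0 0 (-1) (by norm_num)).of_eq fun z => by ring

lemma Bin.imp (a b : W) : Bin (fun z => bv (z a) * (1 - bv (z b))) :=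
  (Bin.pair a b 0 1 0 (-1) (by norm_num)).of_eq fun z => by ring

end Bin

/-- internal form of expressibility -/
def Ex {V : Type} (f : (V → Bool) → ℚ) : Prop :=
  ∃ (Y : Type) (_ : Fintype Y) (c : (V ⊕ Y → Bool) → ℚ), Bin c ∧
    ∀ x, IsLeast (Set.range fun y : Y → Bool => c (Sum.elim x y)) (f x)

lemma expressible_iff {n : ℕ} (f : (Fin n → Bool) → ℚ) : Expressible f ↔ Ex f := by
  constructor
  · rintro ⟨m, r, g, a, h1, h2⟩
    exact ⟨Fin m, inferInstance, fun z => ∑ j, g j (fun k => z (a j k)),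
      ⟨Fin r, inferInstance, g, a, h1, fun _ => rfl⟩, h2⟩
  · rintro ⟨Y, _, c, ⟨J, _, g, a, h1, h2⟩, h3⟩
    let e := Fintype.equivFin Y
    let e' := Fintype.equivFin J
    refine ⟨Fintype.card Y, Fintype.card J, fun j => g (e'.symm j),
      fun j k => Sum.map id e (a (e'.symm j) k), fun j => h1 _, fun x => ?_⟩
    have key : ∀ y : Fin (Fintype.card Y) → Bool,
        (∑ j, g (e'.symm j) (fun k => Sum.elim x y (Sum.map id e (a (e'.symm j) k))))
          = c (Sum.elim x (fun u => y (e u))) := by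
      intro y
      rw [h2, ← e'.symm.sum_comp]
      refine Finset.sum_congr rfl fun j _ => ?_
      congr 1
      funext k
      cases a (e'.symm j) k <;> rfl
    simp only [key]
    convert h3 x using 1
    ext s
    constructor
    · rintro ⟨y, rfl⟩
      exact ⟨_, rfl⟩
    · rintro ⟨y, rfl⟩
      exact ⟨fun u => y (e.symm u), by simp⟩

section Ex
variable {V : Type}

lemma Ex.of_eq {c d : (V → Bool) → ℚ} (h : Ex c) (e : ∀ z, c z = d z) : Ex d := by
  have : c = d := funext e
  rwa [← this]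

lemma Ex.of_bin {c : (V → Bool) → ℚ} (h : Bin c) : Ex c :=
  ⟨Empty, inferInstance, _, h.rename Sum.inl, fun x =>
    ⟨⟨fun u => u.elim, rfl⟩, by rintro _ ⟨y, rfl⟩; exact le_rfl⟩⟩

lemma Ex.add {f g : (V → Bool) → ℚ} (h : Ex f) (h' : Ex g) : Ex (fun x => f x + g x) := by
  obtain ⟨Y, _, c, h1, h2⟩ := h
  obtain ⟨Y', _, c', h1', h2'⟩ := h'
  refine ⟨Y ⊕ Y', inferInstance, _,
    (h1.rename (Sum.map id Sum.inl)).add (h1'.rename (Sum.map id Sum.inr)), fun x => ?_⟩
  have e1 : ∀ y : Y ⊕ Y' → Bool, (fun w => Sum.elim x y (Sum.map id Sum.inl w))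
      = Sum.elim x (fun u => y (Sum.inl u)) := fun y => by funext w; cases w <;> rfl
  have e2 : ∀ y : Y ⊕ Y' → Bool, (fun w => Sum.elim x y (Sum.map id Sum.inr w))
      = Sum.elim x (fun u => y (Sum.inr u)) := fun y => by funext w; cases w <;> rfl
  simp only [e1, e2]
  obtain ⟨⟨y, hy⟩, hl⟩ := h2 x
  obtain ⟨⟨y', hy'⟩, hl'⟩ := h2' x
  refine ⟨⟨Sum.elim y y', ?_⟩, ?_⟩
  · rw [← hy, ← hy']; rfl
  · rintro _ ⟨w, rfl⟩
    exact add_le_add (hl ⟨_, rfl⟩) (hl' ⟨_, rfl⟩)

lemma Ex.smul {f : (V → Bool) → ℚ} (h : Ex f) {k : ℚ} (hk : 0 ≤ k) : Ex (fun x => k * f x) := by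
  obtain ⟨Y, _, c, h1, h2⟩ := h
  refine ⟨Y, inferInstance, _, h1.smul hk, fun x => ?_⟩
  obtain ⟨⟨y, hy⟩, hl⟩ := h2 x
  refine ⟨⟨y, congrArg (fun t => k * t) hy⟩, ?_⟩
  rintro _ ⟨w, rfl⟩
  exact mul_le_mul_of_nonneg_left (hl ⟨_, rfl⟩) hk

lemma Ex.zero : Ex (fun _ : V → Bool => 0) := Ex.of_bin Bin.zero

lemma Ex.const (k : ℚ) : Ex (fun _ : V → Bool => k) :=
  ⟨Unit, inferInstance, _, Bin.lin (Sum.inr ()) k 0, fun x =>
    ⟨⟨fun _ => false, by simp⟩, by rintro _ ⟨y, rfl⟩; simp⟩⟩

lemma Ex.sum {I : Type} (s : Finset I) {c : I → (V → Bool) → ℚ} (h : ∀ i ∈ s, Ex (c i)) :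
    Ex (fun z => ∑ i ∈ s, c i z) := by
  classical
  induction s using Finset.induction_on with
  | empty => exact Ex.zero.of_eq (by simp)
  | insert i s hi ih =>
    refine ((h i (by simp)).add (ih fun j hj => h j (by simp [hj]))).of_eq fun z => ?_
    rw [Finset.sum_insert hi]

/-- general multimorphism inequality -/
lemma Ex.multi {k : ℕ} (F : (Fin k → Bool) → Fin k → Bool)
    (h1 : ∀ u, ∑ i, bv (F u i) = ∑ i, bv (u i))
    (h2 : ∀ u v, ∑ i, bv (u i) * bv (v i) ≤ ∑ i, bv (F u i) * bv (F v i))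
    {f : (V → Bool) → ℚ} (h : Ex f) (x : Fin k → V → Bool) :
    ∑ i, f (fun v => F (fun l => x l v) i) ≤ ∑ i, f (x i) := by
  obtain ⟨Y, _, c, ⟨J, _, g, a, g1, g2⟩, hc⟩ := h
  choose y hy using fun i => (hc (x i)).1
  have step : ∀ (z : Fin k → V ⊕ Y → Bool),
      ∑ i, c (fun w => F (fun l => z l w) i) ≤ ∑ i, c (z i) := by
    intro z
    simp only [g2]
    rw [Finset.sum_comm, Finset.sum_comm (f := fun i j => g j fun k => z i (a j k))]
    refine Finset.sum_le_sum fun j _ => ?_
    set c0 := g j ![false, false]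
    set c1 := g j ![true, false] - c0
    set c2 := g j ![false, true] - c0
    set d := g j ![true, true] - g j ![true, false] - g j ![false, true] + c0
    have hd : d ≤ 0 := by
      have := g1 j ![true, false] ![false, true]
      have e1 : (![true, false] ⊓ ![false, true] : Fin 2 → Bool) = ![false, false] := by decide
      have e2 : (![true, false] ⊔ ![false, true] : Fin 2 → Bool) = ![true, true] := by decide
      rw [e1, e2] at this
      simp only [d, c0]; linarith
    have hg : ∀ v : Fin 2 → Bool,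
        g j v = c0 + c1 * bv (v 0) + c2 * bv (v 1) + d * (bv (v 0) * bv (v 1)) := by
      intro v
      have : v = ![v 0, v 1] := by funext i; fin_cases i <;> rfl
      rw [this]
      cases v 0 <;> cases v 1 <;> simp only [c0, c1, c2, d, Matrix.cons_val_zero,
        Matrix.cons_val_one, bv_true, bv_false] <;> ring
    simp only [hg, Finset.sum_add_distrib, ← Finset.mul_sum, h1]
    have := mul_le_mul_of_nonpos_left (h2 (fun l => z l (a j 0)) (fun l => z l (a j 1))) hd
    linarith
  calc ∑ i, f (fun v => F (fun l => x l v) i)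
      ≤ ∑ i, c (fun w => F (fun l => Sum.elim (x l) (y l) w) i) := by
        refine Finset.sum_le_sum fun i _ => (hc _).2 ⟨fun u => F (fun l => y l u) i, ?_⟩
        beta_reduce
        congr 1
        funext w; cases w <;> rfl
    _ ≤ ∑ i, c (Sum.elim (x i) (y i)) := step _
    _ = _ := Finset.sum_congr rfl fun i _ => hy i

lemma Ex.submodular {f : (V → Bool) → ℚ} (h : Ex f) : Submodular f := by
  intro x y
  have := Ex.multi (k := 2) (fun u => ![u 0 ⊓ u 1, u 0 ⊔ u 1])
    (fun u => by simp only [Fin.sum_univ_two]; cases u 0 <;> cases u 1 <;> simp)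
    (fun u v => by
      simp only [Fin.sum_univ_two]
      cases u 0 <;> cases u 1 <;> cases v 0 <;> cases v 1 <;> simp) h ![x, y]
  simp only [Fin.sum_univ_two] at this
  exact this

/-- conjunction of a set of variables -/
def an (A : Finset V) (x : V → Bool) : ℚ := ∏ u ∈ A, bv (x u)

/-- disjunction of a set of variables -/
def orr (A : Finset V) (x : V → Bool) : ℚ := 1 - ∏ u ∈ A, (1 - bv (x u))

lemma an_cases (A : Finset V) (x : V → Bool) :
    (an A x = 1 ∧ ∑ u ∈ A, (1 - bv (x u)) = 0) ∨ (an A x = 0 ∧ 1 ≤ ∑ u ∈ A, (1 - bv (x u))) := by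
  by_cases h : ∀ u ∈ A, x u = true
  · left
    exact ⟨Finset.prod_eq_one fun u hu => by simp [h u hu],
      Finset.sum_eq_zero fun u hu => by simp [h u hu]⟩
  · right
    push Not at h
    obtain ⟨u, hu, hx⟩ := h
    have hx' : x u = false := by simpa using hx
    refine ⟨Finset.prod_eq_zero hu (by simp [hx']), ?_⟩
    have := Finset.single_le_sum (f := fun u => 1 - bv (x u))
      (fun u _ => sub_nonneg.2 (bv_le _)) hu
    simpa [hx'] using this

lemma orr_cases (A : Finset V) (x : V → Bool) :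
    (orr A x = 0 ∧ ∑ u ∈ A, bv (x u) = 0) ∨ (orr A x = 1 ∧ 1 ≤ ∑ u ∈ A, bv (x u)) := by
  by_cases h : ∀ u ∈ A, x u = false
  · left
    refine ⟨?_, Finset.sum_eq_zero fun u hu => by simp [h u hu]⟩
    rw [orr, Finset.prod_eq_one fun u hu => by simp [h u hu]]; simp
  · right
    push Not at h
    obtain ⟨u, hu, hx⟩ := h
    have hx' : x u = true := by simpa using hx
    refine ⟨by rw [orr, Finset.prod_eq_zero hu (by simp [hx'])]; simp, ?_⟩
    have := Finset.single_le_sum (f := fun u => bv (x u)) (fun u _ => bv_nonneg _) hu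
    simpa [hx'] using this

lemma bin_and {Y : Type} (A : Finset V) (a : Y) :
    Bin (fun z : V ⊕ Y → Bool => bv (z (Sum.inr a)) * ∑ u ∈ A, (1 - bv (z (Sum.inl u)))) :=
  (Bin.sum A fun u _ => Bin.imp (Sum.inr a) (Sum.inl u)).of_eq fun z => by rw [Finset.mul_sum]

lemma bin_or {Y : Type} (A : Finset V) (a : Y) :
    Bin (fun z : V ⊕ Y → Bool => (∑ u ∈ A, bv (z (Sum.inl u))) * (1 - bv (z (Sum.inr a)))) :=
  (Bin.sum A fun u _ => Bin.imp (Sum.inl u) (Sum.inr a)).of_eq fun z => by rw [Finset.sum_mul]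

lemma ex_neg_an (A : Finset V) : Ex (fun x => - an A x) := by
  refine ⟨Unit, inferInstance, _, (Bin.lin (Sum.inr ()) 0 (-1)).add (bin_and A ()), fun x => ?_⟩
  simp only [Sum.elim_inl, Sum.elim_inr]
  rcases an_cases A x with ⟨h1, h2⟩ | ⟨h1, h2⟩ <;> rw [h1]
  · refine ⟨⟨fun _ => true, by simp [h2]⟩, ?_⟩
    rintro _ ⟨y, rfl⟩
    cases hy : y () <;> simp [hy, h2]
  · refine ⟨⟨fun _ => false, by simp⟩, ?_⟩
    rintro _ ⟨y, rfl⟩
    cases hy : y () <;> simp only [hy, bv_true, bv_false] <;> linarith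

/-- the cubic upper fan -/
def psi (a b c : ℚ) : ℚ := a * b * c - a * b - a * c - b * c

lemma bin_core {Y : Type} (y a b c : Y) :
    Bin (fun z : V ⊕ Y → Bool => bv (z (Sum.inr y)) *
      (1 - bv (z (Sum.inr a)) - bv (z (Sum.inr b)) - bv (z (Sum.inr c)))) :=
  ((((Bin.lin (Sum.inr y) 0 1).add (Bin.neg (Sum.inr y) (Sum.inr a))).add
    (Bin.neg (Sum.inr y) (Sum.inr b))).add (Bin.neg (Sum.inr y) (Sum.inr c))).of_eq
    fun z => by ring

lemma ex_psi_and (A B C : Finset V) : Ex (fun x => psi (an A x) (an B x) (an C x)) := by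
  refine ⟨Fin 4, inferInstance, _, (((bin_core 0 1 2 3).add (bin_and A 1)).add (bin_and B 2)).add
    (bin_and C 3), fun x => ?_⟩
  simp only [Sum.elim_inl, Sum.elim_inr]
  constructor
  · rcases an_cases A x with ⟨a1, a2⟩ | ⟨a1, a2⟩ <;>
    rcases an_cases B x with ⟨b1, b2⟩ | ⟨b1, b2⟩ <;>
    rcases an_cases C x with ⟨c1, c2⟩ | ⟨c1, c2⟩ <;> rw [a1, b1, c1]
    · exact ⟨fun _ => true, by norm_num [psi, a2, b2, c2]⟩
    · exact ⟨![true, true, true, false], by simp [psi, a2, b2]⟩
    · exact ⟨![true, true, false, true], by simp [psi, a2, c2]⟩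
    · exact ⟨![false, false, false, false], by simp [psi]⟩
    · exact ⟨![true, false, true, true], by simp [psi, b2, c2]⟩
    · exact ⟨![false, false, false, false], by simp [psi]⟩
    · exact ⟨![false, false, false, false], by simp [psi]⟩
    · exact ⟨![false, false, false, false], by simp [psi]⟩
  · rintro _ ⟨y, rfl⟩
    rcases an_cases A x with ⟨a1, a2⟩ | ⟨a1, a2⟩ <;>
    rcases an_cases B x with ⟨b1, b2⟩ | ⟨b1, b2⟩ <;>
    rcases an_cases C x with ⟨c1, c2⟩ | ⟨c1, c2⟩ <;> rw [a1, b1, c1] <;>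
    cases h0 : y 0 <;> cases h1 : y 1 <;> cases h2 : y 2 <;> cases h3 : y 3 <;>
    simp only [psi, h0, h1, h2, h3, bv_true, bv_false] <;> linarith

lemma ex_psi_or (A B O : Finset V) :
    Ex (fun x => psi (an A x) (an B x) (orr O x) + orr O x) := by
  refine ⟨Fin 4, inferInstance, _, ((((bin_core 0 1 2 3).add (bin_and A 1)).add (bin_and B 2)).add
    (bin_or O 3)).add (Bin.lin (Sum.inr 3) 0 1), fun x => ?_⟩
  simp only [Sum.elim_inl, Sum.elim_inr]
  constructor
  · rcases an_cases A x with ⟨a1, a2⟩ | ⟨a1, a2⟩ <;>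
    rcases an_cases B x with ⟨b1, b2⟩ | ⟨b1, b2⟩ <;>
    rcases orr_cases O x with ⟨c1, c2⟩ | ⟨c1, c2⟩ <;> rw [a1, b1, c1]
    · exact ⟨![true, true, true, false], by simp [psi, a2, b2, c2]⟩
    · exact ⟨fun _ => true, by norm_num [psi, a2, b2]⟩
    · exact ⟨![false, false, false, false], by simp [psi, c2]⟩
    · exact ⟨![true, true, false, true], by simp [psi, a2]⟩
    · exact ⟨![false, false, false, false], by simp [psi, c2]⟩
    · exact ⟨![true, false, true, true], by simp [psi, b2]⟩
    · exact ⟨![false, false, false, false], by simp [psi, c2]⟩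
    · exact ⟨![false, false, false, true], by simp [psi]⟩
  · rintro _ ⟨y, rfl⟩
    rcases an_cases A x with ⟨a1, a2⟩ | ⟨a1, a2⟩ <;>
    rcases an_cases B x with ⟨b1, b2⟩ | ⟨b1, b2⟩ <;>
    rcases orr_cases O x with ⟨c1, c2⟩ | ⟨c1, c2⟩ <;> rw [a1, b1, c1] <;>
    cases h0 : y 0 <;> cases h1 : y 1 <;> cases h2 : y 2 <;> cases h3 : y 3 <;>
    simp only [psi, h0, h1, h2, h3, bv_true, bv_false] <;> linarith

section Pos
variable [DecidableEq V] (P : Finset (V × V))

/-- sum of the products over the allowed pairs -/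
def SS (x : V → Bool) : ℚ := ∑ p ∈ P, bv (x p.1) * bv (x p.2)

/-- expressible after subtracting `c` times the sum over allowed pairs -/
def Pos (c : ℚ) (r : (V → Bool) → ℚ) : Prop := Ex (fun x => r x - c * SS P x)

/-- all pairs of distinct elements are allowed -/
def Allowed (I : Finset V) : Prop := ∀ i ∈ I, ∀ j ∈ I, i ≠ j → (i, j) ∈ P ∨ (j, i) ∈ P

variable {P}

omit [DecidableEq V] in
lemma Allowed.mono {I J : Finset V} (h : Allowed P I) (hJ : J ⊆ I) : Allowed P J :=
  fun i hi j hj => h i (hJ hi) j (hJ hj)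

omit [DecidableEq V] in
lemma ex_negS (P : Finset (V × V)) : Ex (fun x => - SS P x) :=
  Ex.of_bin ((Bin.sum P fun p _ => Bin.neg p.1 p.2).of_eq fun z => by simp [SS])

omit [DecidableEq V] in
lemma Pos.mono {c c' : ℚ} {r : (V → Bool) → ℚ} (h : Pos P c r) (hc : c ≤ c') : Pos P c' r :=
  (Ex.add h ((ex_negS P).smul (sub_nonneg.2 hc))).of_eq fun x => by ring

omit [DecidableEq V] in
lemma Pos.of_ex {r : (V → Bool) → ℚ} (h : Ex r) : Pos P 0 r := h.of_eq fun x => by ring

omit [DecidableEq V] in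
lemma Pos.add {c c' : ℚ} {r r' : (V → Bool) → ℚ} (h : Pos P c r) (h' : Pos P c' r') :
    Pos P (c + c') (fun x => r x + r' x) := (Ex.add h h').of_eq fun x => by ring

omit [DecidableEq V] in
lemma Pos.smul {c k : ℚ} {r : (V → Bool) → ℚ} (h : Pos P c r) (hk : 0 ≤ k) :
    Pos P (k * c) (fun x => k * r x) := (Ex.smul h hk).of_eq fun x => by ring

omit [DecidableEq V] in
lemma Pos.of_eq {c : ℚ} {r r' : (V → Bool) → ℚ} (h : Pos P c r) (e : ∀ x, r x = r' x) :
    Pos P c r' := Ex.of_eq h fun x => by rw [e]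

omit [DecidableEq V] in
lemma Pos.sum {I : Type} (s : Finset I) {c : I → ℚ} {r : I → (V → Bool) → ℚ}
    (h : ∀ i ∈ s, Pos P (c i) (r i)) : Pos P (∑ i ∈ s, c i) (fun x => ∑ i ∈ s, r i x) :=
  (Ex.sum s h).of_eq fun x => by rw [Finset.sum_sub_distrib, Finset.sum_mul]

lemma pos_pair {i j : V} (h : (i, j) ∈ P ∨ (j, i) ∈ P) :
    Pos P 1 (fun x => bv (x i) * bv (x j)) := by
  rcases h with h | h
  · refine (ex_negS (P.erase (i, j))).of_eq fun x => ?_
    simp only [SS]
    rw [← Finset.add_sum_erase P _ h]; ring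
  · refine (ex_negS (P.erase (j, i))).of_eq fun x => ?_
    simp only [SS]
    rw [← Finset.add_sum_erase P _ h]; ring

lemma pos_an : ∀ (d : ℕ) (I : Finset V), I.card = d → Allowed P I → Pos P (2 ^ d - 1) (an I)
  | 0, I, hI, _ => by
      rw [Finset.card_eq_zero] at hI
      subst hI
      exact (Pos.of_ex ((Ex.const 1).of_eq fun x => by simp [an])).mono (by norm_num)
  | 1, I, hI, _ => by
      obtain ⟨u, rfl⟩ := Finset.card_eq_one.1 hI
      exact (Pos.of_ex (Ex.of_bin ((Bin.lin u 0 1).of_eq fun x => by simp [an]))).mono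
        (by norm_num)
  | d + 2, I, hI, hA => by
      obtain ⟨i, J, hi, rfl, hJ⟩ := Finset.card_eq_succ.1 hI
      obtain ⟨j, C, hj, rfl, hC⟩ := Finset.card_eq_succ.1 hJ
      have hij : i ≠ j := fun h => hi (by simp [h])
      have hiC : i ∉ C := fun h => hi (by simp [h])
      have h1 := pos_an (d + 1) (insert i C) (by rw [Finset.card_insert_of_notMem hiC, hC])
        (hA.mono (by intro u; simp only [Finset.mem_insert]; tauto))
      have h2 := pos_an (d + 1) (insert j C) hJ
        (hA.mono (by intro u; simp only [Finset.mem_insert]; tauto))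
      have h3 := pos_pair (hA i (by simp) j (by simp) hij)
      have h4 := Pos.of_ex (P := P) (ex_psi_and {i} {j} C)
      refine ((((h4.add h3).add h1).add h2).mono (le_of_eq (by ring))).of_eq fun x => ?_
      simp only [an, psi, Finset.prod_singleton, Finset.prod_insert hi, Finset.prod_insert hj,
        Finset.prod_insert hiC]
      ring

lemma pos_an' [Fintype V] (I : Finset V) (h : Allowed P I) :
    Pos P (2 ^ Fintype.card V) (an I) ∧ Pos P (2 ^ Fintype.card V) (fun x => - an I x) := by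
  refine ⟨(pos_an _ I rfl h).mono ?_, (Pos.of_ex (ex_neg_an I)).mono (by positivity)⟩
  have : (2 : ℚ) ^ I.card ≤ 2 ^ Fintype.card V :=
    pow_le_pow_right₀ (by norm_num) (Finset.card_le_univ I)
  linarith

lemma an_insert (u : V) (B : Finset V) (x : V → Bool) : an (insert u B) x = bv (x u) * an B x := by
  by_cases h : u ∈ B
  · rw [Finset.insert_eq_of_mem h, an, ← Finset.mul_prod_erase B _ h]
    cases x u <;> simp
  · rw [an, Finset.prod_insert h]; rfl

lemma pos_or [Fintype V] (O : Finset V) : ∀ B : Finset V, Allowed P (O ∪ B) →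
    Pos P ((2 ^ O.card - 1) * 2 ^ Fintype.card V) (fun x => orr O x * an B x) ∧
    Pos P ((2 ^ O.card - 1) * 2 ^ Fintype.card V) (fun x => - (orr O x * an B x)) := by
  induction O using Finset.induction_on with
  | empty =>
    intro B _
    constructor
    · exact ((Pos.of_ex Ex.zero).mono (by simp)).of_eq fun x => by simp [orr]
    · exact ((Pos.of_ex Ex.zero).mono (by simp)).of_eq fun x => by simp [orr]
  | insert u O hu ih =>
    intro B hA
    obtain ⟨a1, a2⟩ := ih B (hA.mono (by intro v; simp only [mem_union, mem_insert]; tauto))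
    obtain ⟨b1, b2⟩ := ih (insert u B)
      (hA.mono (by intro v; simp only [mem_union, mem_insert]; tauto))
    obtain ⟨c1, c2⟩ := pos_an' (insert u B)
      (hA.mono (by intro v; simp only [mem_union, mem_insert]; tauto))
    rw [Finset.card_insert_of_notMem hu]
    constructor
    · refine (((a1.add b2).add c1).mono (le_of_eq (by ring))).of_eq fun x => ?_
      simp only [an_insert, orr, Finset.prod_insert hu]; ring
    · refine (((a2.add b1).add c2).mono (le_of_eq (by ring))).of_eq fun x => ?_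
      simp only [an_insert, orr, Finset.prod_insert hu]; ring

lemma pos_phi [Fintype V] (U t : Finset V) (a b : V) (ht : t ⊆ U)
    (ha : Allowed P (insert a U)) (hb : Allowed P (insert b U)) :
    Pos P (3 * 4 ^ Fintype.card V)
      (fun x => - (bv (x a) * bv (x b) * (an t x * (1 - orr (U \ t) x)))) := by
  have hle : ((2 : ℚ) ^ (U \ t).card - 1) * 2 ^ Fintype.card V ≤ 4 ^ Fintype.card V := by
    have : (2 : ℚ) ^ (U \ t).card ≤ 2 ^ Fintype.card V :=
      pow_le_pow_right₀ (by norm_num) (Finset.card_le_univ _)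
    rw [show (4 : ℚ) = 2 * 2 by norm_num, mul_pow]
    apply mul_le_mul_of_nonneg_right (by linarith) (by positivity)
  have h0 := Pos.of_ex (P := P) (ex_psi_or {a} (insert b t) (U \ t))
  have h1 := ((pos_or (U \ t) {a} (ha.mono (by
    intro v; simp only [mem_union, mem_insert, mem_sdiff, mem_singleton]; tauto))).1).mono hle
  have h2 := ((pos_or (U \ t) (insert b t) (hb.mono (by
    intro v; have := @ht v; simp only [mem_union, mem_insert, mem_sdiff]; tauto))).1).mono hle
  have h3 := ((pos_or (U \ t) ∅ (hb.mono (by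
    intro v; simp only [mem_union, mem_insert, mem_sdiff, notMem_empty]; tauto))).2).mono hle
  refine ((((h0.add h1).add h2).add h3).mono (le_of_eq (by ring))).of_eq fun x => ?_
  simp only [an_insert, psi]
  simp only [an, Finset.prod_singleton, Finset.prod_empty]
  ring

/-- The main expressibility lemma. -/
lemma pos_main [Fintype V] (U : Finset V) (a b : V)
    (ha : Allowed P (insert a U)) (hb : Allowed P (insert b U))
    (q : Finset V → ℚ) (B : ℚ) (hq : ∀ t ⊆ U, q t ≤ 0 ∧ -B ≤ q t) :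
    Pos P (3 * 8 ^ Fintype.card V * B)
      (fun x => bv (x a) * bv (x b) * q (U.filter fun u => x u = true)) := by
  have hB : 0 ≤ B := by have := hq ∅ (by simp); linarith [this.1, this.2]
  have h := Pos.sum (P := P) U.powerset (fun t ht =>
    (pos_phi U t a b (Finset.mem_powerset.1 ht) ha hb).smul
      (neg_nonneg.2 (hq t (Finset.mem_powerset.1 ht)).1))
  refine (h.mono ?_).of_eq fun x => ?_
  · calc ∑ t ∈ U.powerset, -q t * (3 * 4 ^ Fintype.card V)
        ≤ ∑ t ∈ U.powerset, B * (3 * 4 ^ Fintype.card V) :=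
          Finset.sum_le_sum fun t ht => mul_le_mul_of_nonneg_right
            (by linarith [(hq t (Finset.mem_powerset.1 ht)).2]) (by positivity)
      _ = 2 ^ U.card * (B * (3 * 4 ^ Fintype.card V)) := by
          rw [Finset.sum_const, Finset.card_powerset]; simp
      _ ≤ 2 ^ Fintype.card V * (B * (3 * 4 ^ Fintype.card V)) :=
          mul_le_mul_of_nonneg_right (pow_le_pow_right₀ (by norm_num) (Finset.card_le_univ _))
            (by positivity)
      _ = _ := by rw [show (8 : ℚ) = 2 * 4 by norm_num, mul_pow]; ring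
  · rw [Finset.sum_eq_single (U.filter fun u => x u = true)]
    · have e1 : an (U.filter fun u => x u = true) x = 1 :=
        Finset.prod_eq_one fun u hu => by simp [(Finset.mem_filter.1 hu).2]
      have e2 : orr (U \ U.filter fun u => x u = true) x = 0 := by
        rw [orr, Finset.prod_eq_one, sub_self]
        intro u hu
        have : x u = false := by
          simp only [mem_sdiff, mem_filter, not_and] at hu
          simpa using hu.2 hu.1
        simp [this]
      rw [e1, e2]; ring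
    · intro t ht hne
      have : an t x * (1 - orr (U \ t) x) = 0 := by
        by_contra h0
        apply hne
        have h1 := left_ne_zero_of_mul h0
        have h2 := right_ne_zero_of_mul h0
        rw [orr, sub_sub_cancel] at h2
        ext u
        simp only [mem_filter]
        constructor
        · intro hu
          refine ⟨Finset.mem_powerset.1 ht hu, ?_⟩
          have := Finset.prod_ne_zero_iff.1 h1 u hu
          cases hx : x u <;> simp [hx] at this ⊢
        · rintro ⟨hu, hx⟩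
          by_contra hut
          have := Finset.prod_ne_zero_iff.1 h2 u (by simp [hu, hut])
          simp [hx] at this
      rw [this]; ring
    · intro h; exact absurd (Finset.mem_powerset.2 (Finset.filter_subset _ _)) h

end Pos

/-- the table of the five-fold operation -/
def sepTab : List ℕ := [0, 2, 2, 3, 4, 6, 6, 7, 4, 6, 6, 7, 5, 7, 7, 15, 2, 6, 6, 7, 6, 14, 7, 15,
  6, 7, 22, 23, 7, 15, 23, 31]

/-- the five-fold operation -/
def Fsep (u : Fin 5 → Bool) (i : Fin 5) : Bool :=
  (sepTab.getD ((u 0).toNat + 2 * (u 1).toNat + 4 * (u 2).toNat + 8 * (u 3).toNat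
    + 16 * (u 4).toNat) 0).testBit i

lemma bv_eq (b : Bool) : bv b = (b.toNat : ℚ) := by cases b <;> simp

lemma Fsep_1 (u : Fin 5 → Bool) : ∑ i, bv (Fsep u i) = ∑ i, bv (u i) := by
  have : ∀ u : Fin 5 → Bool, ∑ i, (Fsep u i).toNat = ∑ i, (u i).toNat := by decide +kernel
  simp only [bv_eq]
  exact_mod_cast this u

lemma Fsep_2 (u v : Fin 5 → Bool) :
    ∑ i, bv (u i) * bv (v i) ≤ ∑ i, bv (Fsep u i) * bv (Fsep v i) := by
  have : ∀ u v : Fin 5 → Bool, ∑ i, (u i).toNat * (v i).toNat
      ≤ ∑ i, (Fsep u i).toNat * (Fsep v i).toNat := by decide +kernel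
  simp only [bv_eq]
  exact_mod_cast this u v

end Ex

end Pool.Agent.Lib.MP_cb9cb0_lc
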