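import Mathlib
import Pool.Agent.Lib.MP_cb9cb0_lc.Express

/-!
The quartic polynomial attached to a graph and a threshold.
-/

set_option autoImplicit false

open Finset

namespace Pool.Agent.Lib.MP_cb9cb0_lc

/-- all pairs of indices below `n` -/
def pairs (n : ℕ) : List (ℕ × ℕ) := (List.range n).flatMap fun i => (List.range n).map fun j => (i, j)

lemma pairs_nodup (n : ℕ) : (pairs n).Nodup :=
  List.Nodup.product List.nodup_range List.nodup_range

lemma mem_pairs {n : ℕ} {p : ℕ × ℕ} : p ∈ pairs n ↔ p.1 < n ∧ p.2 < n := by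
  obtain ⟨i, j⟩ := p
  simp [pairs]

lemma sum_pairs (n : ℕ) (c : ℕ × ℕ → Bool) (g : ℕ × ℕ → ℚ) :
    (((pairs n).filter c).map g).sum
      = ∑ p : Fin n × Fin n, if c (p.1.val, p.2.val) then g (p.1.val, p.2.val) else 0 := by
  rw [← List.sum_toFinset _ ((pairs_nodup n).filter _), List.toFinset_filter, Finset.sum_filter,
    Fintype.sum_prod_type]
  have : (pairs n).toFinset = Finset.range n ×ˢ Finset.range n := by
    ext p; simp [mem_pairs]
  rw [this, Finset.sum_product, Finset.sum_range]
  refine Finset.sum_congr rfl fun i _ => ?_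
  rw [Finset.sum_range]

/-- the large weight -/
def bigM (m k : ℕ) : ℤ := 3 * 8 ^ (m + 4) * ((m + 4) ^ 2 + m + k + 2)

/-- monomials in the four special variables -/
def K0 (m k : ℕ) : List (List ℕ × ℤ) :=
  [([0, 1], -(k + m + 1 : ℤ)), ([0, 2], -(m + 2 : ℤ)), ([0, 3], -(m + 2 : ℤ)),
   ([1, 2], -(m + 2 : ℤ)), ([1, 3], -(m + 2 : ℤ)), ([2, 3], -(m + 2 : ℤ)),
   ([0, 2, 3], (m + 2 : ℤ)), ([1, 2, 3], (m + 2 : ℤ)), ([0, 1, 2, 3], -(m + 2 : ℤ))]

/-- condition for cubic monomials -/
def c1 (p : ℕ × ℕ) : Bool := decide (p.1 = 0) && decide (4 ≤ p.2)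

/-- condition for allowed pairs -/
def c2 (p : ℕ × ℕ) : Bool :=
  decide (p.1 < p.2) && decide (4 ≤ p.2) && !decide (p.1 = 2) && !decide (p.1 = 3)

/-- condition for edges -/
def c3 (adj : ℕ → ℕ → Bool) (p : ℕ × ℕ) : Bool :=
  decide (4 ≤ p.1) && decide (p.1 < p.2) && adj (p.1 - 4) (p.2 - 4)

/-- all monomials -/
def mons (m k : ℕ) (adj : ℕ → ℕ → Bool) : List (List ℕ × ℤ) :=
  K0 m k ++ ((((pairs (m + 4)).filter c1).map fun p => ([0, 1, p.2], (1 : ℤ))) ++
    ((((pairs (m + 4)).filter c2).map fun p => ([p.1, p.2], - bigM m k)) ++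
    (((pairs (m + 4)).filter (c3 adj)).map fun p => ([0, 1, p.1, p.2], (-1 : ℤ)))))

/-- conversion of a monomial -/
def conv (t : List ℕ × ℤ) : Finset ℕ × ℚ := (t.1.toFinset, (t.2 : ℚ))

/-- the input produced by the reduction -/
def inst (m k : ℕ) (adj : ℕ → ℕ → Bool) : Input := (m + 4, (mons m k adj).map conv)

lemma bigM_pos (m k : ℕ) : 0 < bigM m k := by unfold bigM; positivity

lemma mons_good (m k : ℕ) (adj : ℕ → ℕ → Bool) : ∀ t ∈ mons m k adj,
    t.1.Pairwise (· < ·) ∧ (∀ i ∈ t.1, i < m + 4) ∧ t.1.length ≤ 4 ∧ t.2 ≠ 0 := by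
  intro t ht
  have := bigM_pos m k
  simp only [mons, List.mem_append, List.mem_map, List.mem_filter, mem_pairs, c1, c2, c3,
    Bool.and_eq_true, decide_eq_true_eq] at ht
  rcases ht with ht | ⟨p, hp, rfl⟩ | ⟨p, hp, rfl⟩ | ⟨p, hp, rfl⟩
  · simp only [K0, List.mem_cons, List.not_mem_nil, or_false] at ht
    rcases ht with rfl | rfl | rfl | rfl | rfl | rfl | rfl | rfl | rfl <;>
      refine ⟨by simp, by simp, by simp, by simp only; omega⟩
  · refine ⟨by simp; omega, by simp; omega, by simp, by simp⟩
  · refine ⟨by simp; omega, by simp; omega, by simp, by simp only; omega⟩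
  · refine ⟨by simp; omega, by simp; omega, by simp, by simp⟩

lemma mons_nodup (m k : ℕ) (adj : ℕ → ℕ → Bool) : ((mons m k adj).map Prod.fst).Nodup := by
  simp only [mons, List.map_append, List.map_map]
  have hn := pairs_nodup (m + 4)
  refine List.nodup_append.2 ⟨by simp [K0], List.nodup_append.2 ⟨?_, List.nodup_append.2 ⟨?_, ?_, ?_⟩,
    ?_⟩, ?_⟩
  · refine (hn.filter _).map_on ?_
    rintro ⟨a, b⟩ ha ⟨c, d⟩ hc h
    simp only [List.mem_filter, c1, Bool.and_eq_true, decide_eq_true_eq] at ha hc
    simp only [Function.comp, List.cons.injEq] at h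
    ext <;> simp only <;> omega
  · refine (hn.filter _).map_on ?_
    rintro ⟨a, b⟩ _ ⟨c, d⟩ _ h
    simp only [Function.comp, List.cons.injEq] at h
    ext <;> simp only <;> omega
  · refine (hn.filter _).map_on ?_
    rintro ⟨a, b⟩ _ ⟨c, d⟩ _ h
    simp only [Function.comp, List.cons.injEq] at h
    ext <;> simp only <;> omega
  · intro a ha b hb
    simp only [List.mem_map, Function.comp] at ha hb
    obtain ⟨p, _, rfl⟩ := ha
    obtain ⟨q, _, rfl⟩ := hb
    simp
  · intro a ha b hb
    simp only [List.mem_map, List.mem_append, Function.comp] at ha hb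
    obtain ⟨p, _, rfl⟩ := ha
    rcases hb with ⟨q, _, rfl⟩ | ⟨q, _, rfl⟩ <;> simp
  · intro a ha b hb
    simp only [List.mem_map, List.mem_append, Function.comp, List.mem_filter, c1, c2, c3,
      Bool.and_eq_true, decide_eq_true_eq] at hb
    simp only [K0, List.map_cons, List.map_nil, List.mem_cons, List.not_mem_nil, or_false] at ha
    rcases hb with ⟨q, hq, rfl⟩ | ⟨q, hq, rfl⟩ | ⟨q, hq, rfl⟩ <;>
    rcases ha with rfl | rfl | rfl | rfl | rfl | rfl | rfl | rfl | rfl <;> simp <;> omega

lemma sort_toFinset {l : List ℕ} (h : l.Pairwise (· < ·)) : l.toFinset.sort (· ≤ ·) = l :=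
  (List.toFinset_sort (· ≤ ·) (h.imp ne_of_lt)).2 (h.imp le_of_lt)

lemma inst_quartic (m k : ℕ) (adj : ℕ → ℕ → Bool) : IsQuartic (inst m k adj) := by
  refine ⟨?_, ?_, ?_⟩
  · have h := mons_nodup m k adj
    have : (inst m k adj).2.map Prod.fst = ((mons m k adj).map Prod.fst).map List.toFinset := by
      simp [inst, conv, Function.comp_def]
    rw [this]
    refine h.map_on ?_
    intro a ha b hb hab
    obtain ⟨s, hs, rfl⟩ := List.mem_map.1 ha
    obtain ⟨t, ht, rfl⟩ := List.mem_map.1 hb
    rw [← sort_toFinset (mons_good m k adj s hs).1, hab, sort_toFinset (mons_good m k adj t ht).1]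
  · intro t ht
    obtain ⟨s, hs, rfl⟩ := List.mem_map.1 ht
    obtain ⟨-, h2, h3, h4⟩ := mons_good m k adj s hs
    refine ⟨by simpa [conv] using h4, fun i hi => ?_, (List.toFinset_card_le _).trans h3⟩
    simpa [inst] using h2 i (by simpa [conv] using hi)
  · refine ⟨conv ([0, 1, 2, 3], -(m + 2 : ℤ)), List.mem_map_of_mem ?_, by simp only [conv]; decide⟩
    simp [mons, K0]

/-- extension of an assignment to all natural indices -/
def ext {n : ℕ} (x : Fin n → Bool) (i : ℕ) : ℚ := if h : i < n then bv (x ⟨i, h⟩) else 0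

@[simp] lemma ext_val {n : ℕ} (x : Fin n → Bool) (i : Fin n) : ext x i.val = bv (x i) := by
  simp [ext]

lemma prod_eq {n : ℕ} (x : Fin n → Bool) (l : List ℕ) (h : l.Pairwise (· < ·))
    (h' : ∀ i ∈ l, i < n) :
    ∏ i : Fin n with i.val ∈ l.toFinset, (if x i then (1 : ℚ) else 0) = (l.map (ext x)).prod := by
  rw [← List.prod_toFinset _ (h.imp ne_of_lt)]
  refine Finset.prod_bij (fun i _ => i.val) (fun i hi => (Finset.mem_filter.1 hi).2)
    (fun a _ b _ hab => Fin.ext hab) (fun b hb => ⟨⟨b, h' b (by simpa using hb)⟩, by simpa using hb,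
      rfl⟩) (fun i _ => ?_)
  rw [ext_val]; rfl

section main
variable (m k : ℕ) (adj : ℕ → ℕ → Bool)

/-- the graph variables -/
def UU (m : ℕ) : Finset (Fin (m + 4)) := univ.filter fun i => 4 ≤ i.val

/-- the allowed pairs -/
def PP (m : ℕ) : Finset (Fin (m + 4) × Fin (m + 4)) := univ.filter fun p => c2 (p.1.val, p.2.val)

/-- the edges -/
def EE : Finset (Fin (m + 4) × Fin (m + 4)) := univ.filter fun p => c3 adj (p.1.val, p.2.val)

/-- the quadratic form -/
def qq (t : Finset (Fin (m + 4))) : ℚ :=
  t.card - ((EE m adj).filter fun p => p.1 ∈ t ∧ p.2 ∈ t).card - k + 1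

/-- special variables -/
def sp (i : Fin 4) : Fin (m + 4) := ⟨i.val, by omega⟩

/-- the function defined by the produced input -/
def val2 : (Fin (m + 4) → Bool) → ℚ := value (inst m k adj)

/-- the four variable part -/
def th (a b c d : ℚ) : ℚ :=
  - (a * c) - a * d - b * c - b * d - c * d + a * c * d + b * c * d - a * b * c * d

lemma value_inst (x : Fin (m + 4) → Bool) : val2 m k adj x =
    bv (x (sp m 0)) * bv (x (sp m 1)) * (qq m k adj ((UU m).filter fun u => x u = true) - (m + 2))
      - bigM m k * SS (PP m) x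
      + (m + 2) * th (bv (x (sp m 0))) (bv (x (sp m 1))) (bv (x (sp m 2))) (bv (x (sp m 3))) := by
  have h0 : val2 m k adj x
      = ((mons m k adj).map fun t => (t.2 : ℚ) * (t.1.map (ext x)).prod).sum := by
    simp only [val2, value, inst, List.map_map]
    congr 1
    refine List.map_congr_left fun t ht => ?_
    obtain ⟨h1, h2, -⟩ := mons_good m k adj t ht
    exact congrArg (fun s => (t.2 : ℚ) * s) (prod_eq x t.1 h1 h2)
  have e : ∀ i : Fin 4, ext x i.val = bv (x (sp m i)) := fun i => ext_val x (sp m i)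
  have e0 : ext x 0 = bv (x (sp m 0)) := e 0
  have e1 : ext x 1 = bv (x (sp m 1)) := e 1
  have e2 : ext x 2 = bv (x (sp m 2)) := e 2
  have e3 : ext x 3 = bv (x (sp m 3)) := e 3
  rw [h0]
  simp only [mons, List.map_append, List.sum_append, List.map_map, Function.comp_def, sum_pairs,
    List.map_cons, List.map_nil, List.prod_cons, List.prod_nil, ext_val, e0, e1]
  have s1 : (∑ p : Fin (m + 4) × Fin (m + 4), if c1 (p.1.val, p.2.val) then
      ((1 : ℤ) : ℚ) * (bv (x (sp m 0)) * (bv (x (sp m 1)) * (bv (x p.2) * 1))) else 0)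
      = bv (x (sp m 0)) * bv (x (sp m 1)) * ((UU m).filter fun u => x u = true).card := by
    rw [Fintype.sum_prod_type, Finset.sum_eq_single (sp m 0)]
    · rw [Finset.card_filter, UU, Finset.sum_filter]
      push_cast
      rw [Finset.mul_sum]
      refine Finset.sum_congr rfl fun j _ => ?_
      by_cases hj : 4 ≤ j.val <;> cases hx : x j <;> simp [c1, sp, hj]
    · intro i _ hi
      have : i.val ≠ 0 := fun h => hi (Fin.ext h)
      simp [c1, this]
    · simp
  have s2 : (∑ p : Fin (m + 4) × Fin (m + 4), if c2 (p.1.val, p.2.val) then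
      ((- bigM m k : ℤ) : ℚ) * (bv (x p.1) * (bv (x p.2) * 1)) else 0)
      = - (bigM m k * SS (PP m) x) := by
    rw [SS, PP, Finset.sum_filter, Finset.mul_sum, ← Finset.sum_neg_distrib]
    refine Finset.sum_congr rfl fun p _ => ?_
    split_ifs <;> simp
  have s3 : (∑ p : Fin (m + 4) × Fin (m + 4), if c3 adj (p.1.val, p.2.val) then
      ((-1 : ℤ) : ℚ) * (bv (x (sp m 0)) * (bv (x (sp m 1)) * (bv (x p.1) * (bv (x p.2) * 1))))
      else 0) = - (bv (x (sp m 0)) * bv (x (sp m 1)) * (((EE m adj).filter fun p =>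
        p.1 ∈ ((UU m).filter fun u => x u = true) ∧
        p.2 ∈ ((UU m).filter fun u => x u = true)).card)) := by
    rw [Finset.card_filter, EE, Finset.sum_filter]
    push_cast
    rw [Finset.mul_sum, ← Finset.sum_neg_distrib]
    refine Finset.sum_congr rfl fun p _ => ?_
    by_cases hc : c3 adj (p.1.val, p.2.val) = true
    · have h4 : 4 ≤ p.1.val ∧ 4 ≤ p.2.val := by
        simp only [c3, Bool.and_eq_true, decide_eq_true_eq] at hc; omega
      cases h1 : x p.1 <;> cases h2 : x p.2 <;> simp [hc, UU, h4.1, h4.2, h1, h2]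
    · simp [hc]
  rw [s1, s2, s3]
  simp only [K0, List.map_cons, List.map_nil, List.sum_cons, List.sum_nil, List.prod_cons,
    List.prod_nil, e0, e1, e2, e3, qq, th]
  push_cast
  ring

lemma allowed (i : Fin 4) (hi : i.val < 2) : Allowed (PP m) (insert (sp m i) (UU m)) := by
  intro a ha b hb hab
  have : a.val ≠ b.val := fun h => hab (Fin.ext h)
  simp only [Finset.mem_insert, UU, Finset.mem_filter, Finset.mem_univ, true_and, Fin.ext_iff,
    sp] at ha hb
  simp only [PP, c2, Finset.mem_filter, Finset.mem_univ, true_and, Bool.and_eq_true,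
    decide_eq_true_eq, Bool.not_eq_true', decide_eq_false_iff_not]
  omega

lemma qq_bounds (t : Finset (Fin (m + 4))) (ht : t ⊆ UU m) :
    qq m k adj t ≤ m + 1 ∧ - ((m + 4) ^ 2 + k : ℚ) ≤ qq m k adj t := by
  have h1 : t.card ≤ m := by
    have : (UU m).card ≤ (Finset.range m).card := by
      refine Finset.card_le_card_of_injOn (fun i => i.val - 4) ?_ ?_
      · intro i hi
        have := i.2
        simp only [UU, coe_filter, mem_univ, true_and, Set.mem_ofPred_eq] at hi
        simp only [coe_range, Set.mem_Iio]; omega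
      · intro i hi j hj h
        simp only [UU, coe_filter, mem_univ, true_and, Set.mem_ofPred_eq] at hi hj
        simp only at h
        exact Fin.ext (by omega)
    rw [Finset.card_range] at this
    exact (Finset.card_le_card ht).trans this
  have h2 : ((EE m adj).filter fun p => p.1 ∈ t ∧ p.2 ∈ t).card ≤ (m + 4) ^ 2 := by
    refine (Finset.card_le_univ _).trans ?_
    simp [sq]
  have h1' : (t.card : ℚ) ≤ m := by exact_mod_cast h1
  have h2' : (((EE m adj).filter fun p => p.1 ∈ t ∧ p.2 ∈ t).card : ℚ) ≤ (m + 4) ^ 2 := by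
    exact_mod_cast h2
  have h3 : (0 : ℚ) ≤ t.card := Nat.cast_nonneg _
  have h4 : (0 : ℚ) ≤ ((EE m adj).filter fun p => p.1 ∈ t ∧ p.2 ∈ t).card := Nat.cast_nonneg _
  have h5 : (0 : ℚ) ≤ k := Nat.cast_nonneg _
  unfold qq
  constructor <;> linarith

lemma bigM_cast : (bigM m k : ℚ)
    = 3 * 8 ^ Fintype.card (Fin (m + 4)) * ((m + 4) ^ 2 + m + k + 2) := by
  simp [bigM]

lemma th_submodular {V : Type} (a b c d : V) :
    Submodular fun x : V → Bool => th (bv (x a)) (bv (x b)) (bv (x c)) (bv (x d)) := by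
  intro x y
  simp only [Pi.inf_apply, Pi.sup_apply]
  cases x a <;> cases x b <;> cases x c <;> cases x d <;>
    cases y a <;> cases y b <;> cases y c <;> cases y d <;> norm_num [th]

lemma th_ex {V : Type} [DecidableEq V] (a b c d : V) (hab : a ≠ b) :
    Ex fun x : V → Bool =>
      th (bv (x a)) (bv (x b)) (bv (x c)) (bv (x d)) - bv (x a) * bv (x b) := by
  have h1 := ex_psi_or {c} {d} {a, b}
  have h2 := ex_neg_an (insert a (insert b {c}))
  have h3 := ex_neg_an (insert a (insert b {d}))
  have h4 := Ex.of_bin ((Bin.lin a 0 (-1)).add (Bin.lin b 0 (-1)))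
  refine (((h1.add h2).add h3).add h4).of_eq fun x => ?_
  simp only [an_insert, psi, th, orr, Finset.prod_pair hab]
  simp only [an, Finset.prod_singleton]
  ring

theorem inst_submodular : Submodular (val2 m k adj) := by
  have h := pos_main (P := PP m) (UU m) (sp m 0) (sp m 1) (allowed m 0 (by decide))
    (allowed m 1 (by decide)) (fun t => qq m k adj t - (m + 2)) ((m + 4) ^ 2 + m + k + 2)
    (fun t ht => by
      obtain ⟨h1, h2⟩ := qq_bounds m k adj t ht
      constructor <;> linarith)
  rw [← bigM_cast] at h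
  have h1 := Ex.submodular h
  have h2 := th_submodular (sp m 0) (sp m 1) (sp m 2) (sp m 3)
  intro x y
  have k1 := h1 x y
  have k2 := mul_le_mul_of_nonneg_left (h2 x y) (by positivity : (0 : ℚ) ≤ m + 2)
  rw [value_inst, value_inst, value_inst, value_inst]
  simp only at k1 k2
  linarith

theorem inst_ex (hq : ∀ t ⊆ UU m, qq m k adj t ≤ 0) : Ex (val2 m k adj) := by
  have h := pos_main (P := PP m) (UU m) (sp m 0) (sp m 1) (allowed m 0 (by decide))
    (allowed m 1 (by decide)) (qq m k adj) ((m + 4) ^ 2 + m + k + 2)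
    (fun t ht => by
      obtain ⟨h1, h2⟩ := qq_bounds m k adj t ht
      have : (0 : ℚ) ≤ m := Nat.cast_nonneg _
      exact ⟨hq t ht, by linarith⟩)
  rw [← bigM_cast] at h
  have h2 := (th_ex (sp m 0) (sp m 1) (sp m 2) (sp m 3) (by simp [sp])).smul
    (by positivity : (0 : ℚ) ≤ m + 2)
  refine (Ex.add h h2).of_eq fun x => ?_
  rw [value_inst]
  ring

/-- assignment with a given pattern on the special variables -/
def asg (t : Finset (Fin (m + 4))) (r : Fin 4 → Bool) (v : Fin (m + 4)) : Bool :=
  if h : v.val < 4 then r ⟨v.val, h⟩ else decide (v ∈ t)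

lemma value_asg (t : Finset (Fin (m + 4))) (ht : t ⊆ UU m) : ∃ c0 c1 : ℚ, ∀ r : Fin 4 → Bool,
    val2 m k adj (asg m t r) =
      bv (r 0) * bv (r 1) * (qq m k adj t - (m + 2)) + c0 + c1 * (bv (r 0) + bv (r 1))
        + (m + 2) * th (bv (r 0)) (bv (r 1)) (bv (r 2)) (bv (r 3)) := by
  have e : ∀ r i, asg m t r (sp m i) = r i := fun r i => by simp [asg, sp]
  have e2 : ∀ r, ((UU m).filter fun u => asg m t r u = true) = t := by
    intro r
    ext u
    have := @ht u
    simp only [UU, mem_filter, mem_univ, true_and, asg] at this ⊢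
    constructor
    · rintro ⟨h1, h2⟩
      rw [dif_neg (by omega)] at h2
      simpa using h2
    · intro h
      have h4 := this h
      rw [dif_neg (by omega)]
      exact ⟨h4, by simpa using h⟩
  have e3 : ∀ r, SS (PP m) (asg m t r) = SS (PP m) (asg m t fun _ => false)
      + (bv (r 0) + bv (r 1)) * ∑ j ∈ UU m, bv (decide (j ∈ t)) := by
    intro r
    simp only [SS, PP, Finset.sum_filter, Fintype.sum_prod_type_right, UU]
    rw [Finset.mul_sum, ← Finset.sum_add_distrib]
    refine Finset.sum_congr rfl fun j _ => ?_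
    by_cases hj : 4 ≤ j.val
    · have hj' : ∀ r, asg m t r j = decide (j ∈ t) := fun r => by
        simp only [asg]; rw [dif_neg (by omega)]
      simp only [hj', hj, if_true]
      rw [← sub_eq_iff_eq_add', ← Finset.sum_sub_distrib,
        Finset.sum_eq_add (sp m 0) (sp m 1) (by simp [sp])]
      · have k0 : c2 ((sp m 0).val, j.val) = true := by
          have : 0 < j.val := by omega
          show c2 (0, j.val) = true
          simp [c2, this, hj]
        have k1 : c2 ((sp m 1).val, j.val) = true := by simp [c2, sp]; omega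
        simp only [k0, k1, if_true, e, bv_false]; ring
      · intro i _ hi
        by_cases hc : c2 (i.val, j.val) = true
        · have h4 : ¬ i.val < 4 := by
            have h0 : i.val ≠ 0 := fun h => hi.1 (Fin.ext h)
            have h1 : i.val ≠ 1 := fun h => hi.2 (Fin.ext h)
            simp only [c2, Bool.and_eq_true, decide_eq_true_eq, Bool.not_eq_true',
              decide_eq_false_iff_not] at hc
            omega
          simp [asg, h4]
        · simp [hc]
      · simp
      · simp
    · have : ∀ i : Fin (m + 4), ¬ c2 (i.val, j.val) = true := fun i => by simp [c2, hj]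
      simp [this, hj]
  refine ⟨- bigM m k * SS (PP m) (asg m t fun _ => false),
    - bigM m k * ∑ j ∈ UU m, bv (decide (j ∈ t)), fun r => ?_⟩
  rw [value_inst, e2, e, e, e, e, e3]
  ring

theorem qq_of_ex (h : Ex (val2 m k adj)) (t : Finset (Fin (m + 4))) (ht : t ⊆ UU m) :
    qq m k adj t ≤ 0 := by
  obtain ⟨c0, c1, hc⟩ := value_asg m k adj t ht
  let R : Fin 5 → Fin 4 → Bool := ![![true, false, true, false], ![true, false, false, true],
    ![false, true, true, false], ![false, true, false, true], ![false, false, true, true]]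
  let L : Fin 5 → Fin 4 → Bool := ![![true, true, false, false], ![true, false, true, true],
    ![false, true, true, true], ![false, false, true, false], ![false, false, false, true]]
  have hm := Ex.multi Fsep Fsep_1 Fsep_2 h (fun i => asg m t (R i))
  have e : ∀ i, (fun v => Fsep (fun l => asg m t (R l) v) i) = asg m t (L i) := by
    intro i
    funext v
    simp only [asg]
    split_ifs with hv
    · have : ∀ (i : Fin 5) (j : Fin 4), Fsep (fun l => R l j) i = L i j := by decide
      exact this i _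
    · have : ∀ (i : Fin 5) (b : Bool), Fsep (fun _ => b) i = b := by decide
      exact this i _
  simp only [e, hc, Fin.sum_univ_five] at hm
  simp [R, L, th] at hm
  linarith

/-- independent set of size at least `k` -/
def HasIndep : Prop :=
  ∃ S ⊆ Finset.range m, k ≤ S.card ∧ ∀ u ∈ S, ∀ v ∈ S, u < v → adj u v = false

lemma exists_indep {α : Type} [DecidableEq α] (E : Finset (α × α)) (t : Finset α) :
    ∃ s ⊆ t, t.card ≤ s.card + (E.filter fun p => p.1 ∈ t ∧ p.2 ∈ t).card ∧
      ∀ p ∈ E, p.1 ∈ s → p.2 ∈ s → False := by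
  refine ⟨t \ (E.filter fun p => p.1 ∈ t ∧ p.2 ∈ t).image Prod.fst, Finset.sdiff_subset, ?_, ?_⟩
  · have h1 := Finset.le_card_sdiff ((E.filter fun p => p.1 ∈ t ∧ p.2 ∈ t).image Prod.fst) t
    have h2 := Finset.card_image_le (s := E.filter fun p => p.1 ∈ t ∧ p.2 ∈ t) (f := Prod.fst)
    omega
  · intro p hp h1 h2
    rw [Finset.mem_sdiff] at h1 h2
    exact h1.2 (Finset.mem_image_of_mem _ (Finset.mem_filter.2 ⟨hp, h1.1, h2.1⟩))

lemma hasIndep_iff : HasIndep m k adj ↔ ∃ t ⊆ UU m, 0 < qq m k adj t := by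
  constructor
  · rintro ⟨S, hS, hk, hI⟩
    let f : S → Fin (m + 4) := fun u => ⟨u.val + 4, by have := Finset.mem_range.1 (hS u.2); omega⟩
    have hf : Function.Injective f := fun u v h => Subtype.ext (by simpa [f] using h)
    refine ⟨Finset.univ.image f, ?_, ?_⟩
    · intro i hi
      obtain ⟨u, _, rfl⟩ := Finset.mem_image.1 hi
      simp [UU, f]
    · have e1 : (Finset.univ.image f).card = S.card := by
        rw [Finset.card_image_of_injective _ hf]; simp
      have e2 : ((EE m adj).filter fun p =>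
          p.1 ∈ Finset.univ.image f ∧ p.2 ∈ Finset.univ.image f) = ∅ := by
        rw [Finset.filter_eq_empty_iff]
        rintro ⟨a, b⟩ hp ⟨h1, h2⟩
        obtain ⟨u, _, rfl⟩ := Finset.mem_image.1 h1
        obtain ⟨v, _, rfl⟩ := Finset.mem_image.1 h2
        simp only [EE, c3, f, mem_filter, mem_univ, true_and, Bool.and_eq_true, decide_eq_true_eq,
          Nat.add_sub_cancel] at hp
        have := hI u u.2 v v.2 (by omega)
        rw [this] at hp
        exact absurd hp.2 (by simp)
      have : (k : ℚ) ≤ S.card := by exact_mod_cast hk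
      rw [qq, e1, e2]
      simp only [card_empty, Nat.cast_zero, sub_zero]
      linarith
  · rintro ⟨t, ht, hq⟩
    obtain ⟨s, hs, h1, h2⟩ := exists_indep (EE m adj) t
    have h4 : ∀ i ∈ s, 4 ≤ i.val := fun i hi => by simpa [UU] using ht (hs hi)
    refine ⟨s.image fun i => i.val - 4, ?_, ?_, ?_⟩
    · intro u hu
      obtain ⟨i, hi, rfl⟩ := Finset.mem_image.1 hu
      have := h4 i hi
      have := i.2
      simp only [mem_range]; omega
    · rw [Finset.card_image_of_injOn]
      · have h3 : (k : ℚ) < t.card - ((EE m adj).filter fun p => p.1 ∈ t ∧ p.2 ∈ t).card + 1 := by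
          unfold qq at hq; linarith
        have h5 : (t.card : ℚ) ≤ s.card + ((EE m adj).filter fun p => p.1 ∈ t ∧ p.2 ∈ t).card := by
          exact_mod_cast h1
        have : (k : ℚ) < s.card + 1 := by linarith
        have : k < s.card + 1 := by exact_mod_cast this
        omega
      · intro i hi j hj h
        have := h4 i hi
        have := h4 j hj
        simp only at h
        exact Fin.ext (by omega)
    · intro u hu v hv huv
      obtain ⟨i, hi, rfl⟩ := Finset.mem_image.1 hu
      obtain ⟨j, hj, rfl⟩ := Finset.mem_image.1 hv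
      by_contra hadj
      have := h4 i hi
      have := h4 j hj
      refine h2 (i, j) ?_ hi hj
      simp only [EE, c3, mem_filter, mem_univ, true_and, Bool.and_eq_true, decide_eq_true_eq]
      exact ⟨⟨by omega, by omega⟩, by simpa using hadj⟩

theorem inst_expressible_iff : Expressible (val2 m k adj) ↔ ¬ HasIndep m k adj := by
  rw [expressible_iff, hasIndep_iff]
  constructor
  · rintro h ⟨t, ht, hq⟩
    exact absurd (qq_of_ex m k adj h t ht) (not_le.2 hq)
  · intro h
    apply inst_ex
    intro t ht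
    by_contra hq
    exact h ⟨t, ht, not_le.1 hq⟩

end main

end Pool.Agent.Lib.MP_cb9cb0_lc
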