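import Pool.Agent.Lib.Complexity.CookLevin
import Pool.Agent.Lib.MP_cb9cb0_lc.Reduce

/-!
The reduction runs in polynomial time.
-/

set_option autoImplicit false

namespace Pool.Agent.Lib.MP_cb9cb0_lc

open Pool.Agent.Lib.Complexity N487b59b3 N68a2faeb

/-- adjacency test in an edge list -/
def adjOf (E : List (ℕ × ℕ)) (u v : ℕ) : Bool := decide ((u, v) ∈ E)

/-- the data written by the reduction, with binary numbers -/
def out (b : ℕ × List (ℕ × ℕ) × ℕ) : ℤ × List (List ℤ × ℤ × ℤ) :=
  ((b.1 + 4 : ℕ), (mons b.1 b.2.2 (adjOf b.2.1)).map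
    fun t => (t.1.map (fun i : ℕ => (i : ℤ)), t.2, 1))

lemma pt_out : PT out := by
  unfold out mons K0 pairs c1 c2 c3 bigM adjOf
  fun_prop

lemma enc_out (b : ℕ × List (ℕ × ℕ) × ℕ) :
    bitEncode (Rep.down (out b) : ℕ × List (List ℕ × ℤ × ℕ))
      = bitEncode (inst b.1 b.2.2 (adjOf b.2.1)) := by
  have h : ∀ t ∈ mons b.1 b.2.2 (adjOf b.2.1),
      bitEncode ((t.1, t.2, 1) : List ℕ × ℤ × ℕ) = bitEncode (conv t) := by
    intro t ht
    have h1 := sort_toFinset (mons_good _ _ _ t ht).1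
    show delimit (bitEncode t.1) ++ bitEncode ((t.2, 1) : ℤ × ℕ)
      = delimit (bitEncode (t.1.toFinset.sort (· ≤ ·)))
        ++ bitEncode (((t.2 : ℚ).num, (t.2 : ℚ).den) : ℤ × ℕ)
    rw [h1]; simp
  show delimit (bitEncode _) ++ (((List.map _ _).map bitEncode).map delimit).flatten
    = delimit (bitEncode (b.1 + 4)) ++ (((List.map _ _).map bitEncode).map delimit).flatten
  congr 1
  congr 2
  simp only [out, List.map_map]
  refine List.map_congr_left fun t ht => ?_
  rw [Function.comp, Function.comp, Function.comp, ← h t ht]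
  simp [Function.comp_def]

theorem hard (L : DecisionProblem) (hL : L ∈ NP) : ∃ φ : List Bool → Input, IsPolyTime φ ∧
    ∀ w, IsQuartic (φ w) ∧ Submodular (value (φ w)) ∧
      (L w = true ↔ ¬ Expressible (value (φ w))) := by
  obtain ⟨g, hg, e⟩ := hard_indep L hL
  let b : Str → ℕ × List (ℕ × ℕ) × ℕ := fun w => ((g w).1.1.1, (g w).1.1.2, (g w).2)
  have hb : PT b := by fun_prop
  refine ⟨fun w => inst (b w).1 (b w).2.2 (adjOf (b w).2.1), ?_, fun w =>
    ⟨inst_quartic _ _ _, inst_submodular _ _ _, ?_⟩⟩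
  · have h1 : PT fun l : Str => ((bitDecode l : Option Str).map Rep.up).elim []
        fun a => bitEncode (Rep.down (out (b a)) : ℕ × List (List ℕ × ℤ × ℕ)) :=
      PT.option_elim (Rep.dec_pt (α := Str)) (PT.const _)
        ((Rep.enc_pt (α := ℕ × List (List ℕ × ℤ × ℕ))).comp
          (pt_out.comp (hb.comp (PT.snd PT.id))))
    exact tm2_of_str h1 fun a => by
      change ((bitDecode (bitEncode a) : Option Str).map Rep.up).elim _ _ = bitEncode _
      rw [bitDecode_bitEncode, Option.map_some, up_str, Option.elim_some, enc_out]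
  · have h2 := inst_expressible_iff (b w).1 (b w).2.2 (adjOf (b w).2.1)
    refine (e w).trans (Iff.trans ?_ (not_congr h2).symm)
    rw [not_not]
    constructor
    · rintro ⟨S, ⟨h3, h4⟩, h5⟩
      refine ⟨S, fun a ha => Finset.mem_range.2 (h3 a ha), h5, fun u hu v hv _ => ?_⟩
      simp only [adjOf, decide_eq_false_iff_not]
      exact fun he => h4 _ he ⟨hu, hv⟩
    · rintro ⟨S, h3, h5, h4⟩
      refine ⟨S, ⟨fun a ha => Finset.mem_range.1 (h3 ha), fun p hp hS => ?_⟩, h5⟩
      have := h4 _ hS.1 _ hS.2 ((g w).1.2.2 p hp).1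
      simp only [adjOf, decide_eq_false_iff_not] at this
      exact this hp

end Pool.Agent.Lib.MP_cb9cb0_lc
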